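import Pool.Agent.Helper29.CY.Final

set_option autoImplicit false

/-!
# Cylinders touching a ball: (nearly) centrally symmetric families have at most 12 members
-/

open Module

namespace Pool.Agent.Results.MP_eaa1a7_co.CentrallySymmetric

/-- `C` is a `j`-cylinder in `ℝ^(3+j)`: the set of points at distance `≤ 1` from some (nonempty)
`j`-dimensional affine subspace `L` (its axis). -/
def IsCylinder (j : ℕ) (C : Set (EuclideanSpace ℝ (Fin (3 + j)))) : Prop :=
  ∃ L : AffineSubspace ℝ (EuclideanSpace ℝ (Fin (3 + j))),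
    (L : Set (EuclideanSpace ℝ (Fin (3 + j)))).Nonempty ∧ finrank ℝ L.direction = j ∧
      C = {x | Metric.infDist x (L : Set (EuclideanSpace ℝ (Fin (3 + j)))) ≤ 1}

/-- The body `C` touches the closed unit ball: it meets the ball and the interiors are disjoint. -/
def Touches {n : ℕ} (C : Set (EuclideanSpace ℝ (Fin n))) : Prop :=
  (C ∩ Metric.closedBall 0 1).Nonempty ∧
    Disjoint (interior C) (interior (Metric.closedBall (0 : EuclideanSpace ℝ (Fin n)) 1))

/-- The antipode `-C` of a body `C`. -/
def antipode {n : ℕ} (C : Set (EuclideanSpace ℝ (Fin n))) : Set (EuclideanSpace ℝ (Fin n)) :=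
  {x | -x ∈ C}

/-- For every `j`, an admissible family of `k ≥ 13` `j`-cylinders in `ℝ^(3+j)` has at most `10`
members whose antipode is in the family. -/
theorem result : ∀ (j k : ℕ) (C : Fin k → Set (EuclideanSpace ℝ (Fin (3 + j)))),
    (∀ i, IsCylinder j (C i) ∧ Touches (C i)) →
    (∀ i i', i ≠ i' → Disjoint (interior (C i)) (interior (C i'))) →
    13 ≤ k → {i | ∃ i', C i' = antipode (C i)}.ncard ≤ 10 :=
  fun j k C hC hd hk => Pool.Agent.Helper29.CY.Final.all_j j k C hC hd hk

end Pool.Agent.Results.MP_eaa1a7_co.CentrallySymmetric
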