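import Pool.Agent.Helper80.KC.Main

set_option autoImplicit false

/-!
# Cylinders touching a ball: the least `j` is at most `3` (or does not exist)
-/

open Module

namespace Pool.Agent.Results.MP_eaa1a7_co.ReductionToThree

/-- `C` is a `j`-cylinder in `ℝ^(3+j)`: the set of points at distance `≤ 1` from some (nonempty)
`j`-dimensional affine subspace `L` (its axis). -/
def IsCylinder (j : ℕ) (C : Set (EuclideanSpace ℝ (Fin (3 + j)))) : Prop :=
  ∃ L : AffineSubspace ℝ (EuclideanSpace ℝ (Fin (3 + j))),
    (L : Set (EuclideanSpace ℝ (Fin (3 + j)))).Nonempty ∧ finrank ℝ L.direction = j ∧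
      C = {x | Metric.infDist x (L : Set (EuclideanSpace ℝ (Fin (3 + j)))) ≤ 1}

/-- The body `C` touches the closed unit ball: it meets the ball and the interiors are disjoint. -/
def Touches {n : ℕ} (C : Set (EuclideanSpace ℝ (Fin n))) : Prop :=
  (C ∩ Metric.closedBall 0 1).Nonempty ∧
    Disjoint (interior C) (interior (Metric.closedBall (0 : EuclideanSpace ℝ (Fin n)) 1))

/-- There is an admissible family of `k` `j`-cylinders in `ℝ^(3+j)`: each member touches the closed
unit ball, and the members have pairwise disjoint interiors. -/
def Admissible (k j : ℕ) : Prop :=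
  ∃ C : Fin k → Set (EuclideanSpace ℝ (Fin (3 + j))),
    (∀ i, IsCylinder j (C i) ∧ Touches (C i)) ∧
    ∀ i i', i ≠ i' → Disjoint (interior (C i)) (interior (C i'))

/-- If there is an admissible family of `k` `j`-cylinders for some `j`, then there is one of `k`
`3`-cylinders. -/
theorem result : ∀ k j : ℕ, Admissible k j → Admissible k 3 :=
  Pool.Agent.Helper80.KC.admissible_three

end Pool.Agent.Results.MP_eaa1a7_co.ReductionToThree
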